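import Mathlib
import Pool.Agent.H12.Rank2Perm

set_option autoImplicit false

namespace Pool.Agent.Results.MP_395ab6_co.RankTwo

open scoped ComplexOrder
open Pool.Agent.H12.Rank2Perm

def v : Fin 14 → GaussianInt × GaussianInt :=
  ![(⟨1, 0⟩, 0), (⟨2, 2⟩, 3), (⟨3, -1⟩, 2), (⟨1, 0⟩, 2), (⟨0, -1⟩, 3), (⟨0, 1⟩, 2), (⟨0, -1⟩,
    3), (⟨-1, 0⟩, 3), (⟨0, 0⟩, 3), (⟨0, 2⟩, 1), (⟨-2, -3⟩, 2), (⟨1, -3⟩, 3), (⟨-2, 2⟩, 3),
    (⟨-1, 0⟩, 1)]

theorem result : ¬ ∀ (n : ℕ) (A : Matrix (Fin (n + 2)) (Fin (n + 2)) ℂ), A.PosSemidef →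
    ∑ k : Fin (n + 1), ‖A 0 k.succ‖ ^ 2 * (A.submatrix
      (Subtype.val : {j : Fin (n + 2) // j ≠ 0 ∧ j ≠ k.succ} → Fin (n + 2))
      Subtype.val).permanent.re ≤ A.permanent.re := by
  intro h
  have h1 := h 12 (gram v) (gram_psd v)
  have e1 : (gram v).permanent = _ :=
    per_sub v id Function.injective_id (fun _ => true) (by simp)
  have e3 : ∀ k : Fin 13, ((gram v).submatrix
      (Subtype.val : {j : Fin 14 // j ≠ 0 ∧ j ≠ k.succ} → Fin 14) Subtype.val).permanent = _ :=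
    fun k => per_sub v Subtype.val Subtype.val_injective (fun i => i ≠ 0 ∧ i ≠ k.succ) (by simp)
  simp only [e1, e3, entry, Complex.intCast_re, ← Int.cast_mul, ← Int.cast_sum, Int.cast_le] at h1
  revert h1
  decide +kernel

end Pool.Agent.Results.MP_395ab6_co.RankTwo
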